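import Pool.Agent.H.MP_cbccc2_co.Lift

set_option autoImplicit false

namespace Pool.Agent.Results.MP_cbccc2_co.Lift

open Pool.Agent.Lib.helper7.Mag

theorem result : ∃ (V W : Type) (_ : Fintype V) (_ : Fintype W) (_ : Nonempty V)
    (G : SimpleGraph V) (H : SimpleGraph W) (p : H →g G), Function.Surjective p ∧
    (∀ x, Set.BijOn p (H.neighborSet x) (G.neighborSet (p x))) ∧ nu G < nu H := by
  open H.MP_cbccc2_co in
  refine ⟨W 7, W 9, inferInstance, inferInstance, inferInstance, cay gen, cay bas,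
    ⟨proj, fun {x _} h => (proj_bij x).mapsTo h⟩, proj_surj, proj_bij, ?_⟩
  linarith [H.MP_cbccc2_co.low, H.MP_cbccc2_co.high]

end Pool.Agent.Results.MP_cbccc2_co.Lift
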